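import Pool.Agent.H828R3.Asymp
import Pool.Agent.H828R3.Upper
import Pool.Agent.H828R3.Lower

set_option autoImplicit false

namespace Pool.Agent.Results.MP_e52733_co.Asymptotic

open Filter Asymptotics Pool.Agent.H828R3

open scoped Classical in
/-- `L` (a family of `d` strict linear orders on `X`) together with `τ` is a Boolean realizer of
size `d` of the poset `X`. -/
def IsBooleanRealizer (X : Type) [PartialOrder X] (d : ℕ) (L : Fin d → X → X → Prop)
    (τ : (Fin d → Bool) → Bool) : Prop :=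
  (∀ i, IsStrictTotalOrder X (L i)) ∧
    ∀ x y : X, x ≠ y → (x < y ↔ τ (fun i => decide (L i x y)) = true)

/-- The Boolean dimension: the least `d ≥ 1` such that there is a Boolean realizer of size `d`. -/
noncomputable def bdim (X : Type) [PartialOrder X] : ℕ :=
  sInf {d : ℕ | 1 ≤ d ∧ ∃ (L : Fin d → X → X → Prop) (τ : (Fin d → Bool) → Bool),
    IsBooleanRealizer X d L τ}

/-- The poset `X` is an antichain plus `n` points: for some `B` with `n` elements, the complement
of `B` is an antichain. -/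
def IsAntichainPlus (X : Type) [PartialOrder X] (n : ℕ) : Prop :=
  ∃ B : Finset X, B.card = n ∧ ∀ x y : X, x ∉ B → y ∉ B → ¬ x < y

/-- The set of all Boolean dimensions of finite posets that are an antichain plus `n` points. -/
def values (n : ℕ) : Set ℕ :=
  {k : ℕ | ∃ (X : Type) (_ : Fintype X) (_ : PartialOrder X), IsAntichainPlus X n ∧ k = bdim X}

theorem exists_iff {X : Type} [PartialOrder X] (d : ℕ) :
    (∃ (L : Fin d → X → X → Prop) (τ : (Fin d → Bool) → Bool), IsBooleanRealizer X d L τ) ↔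
      HasBR (fun x y : X => x < y) d := by
  classical
  constructor
  · rintro ⟨L, τ, h1, h2⟩
    refine ⟨L, fun q => τ (fun i => decide (q i)) = true, h1, ?_⟩
    intro x y hxy
    refine (h2 x y hxy).trans ?_
    apply Eq.to_iff
    congr
  · rintro ⟨L, τ, h1, h2⟩
    refine ⟨L, fun q => decide (τ (fun i => q i = true)), h1, ?_⟩
    intro x y hxy
    refine (h2 x y hxy).trans ?_
    simp only [decide_eq_true_eq]

theorem cov_trivial (n : ℕ) : Cov n n := by
  refine ⟨fun i j => if i = j then 0 else 1, fun x => ⟨fun i => if x i = 1 then 1 else 0, ?_⟩⟩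
  intro j
  have h : ∀ i : Fin n, (if (if i = j then (0 : ℕ) else 1) < (if x i = 1 then 1 else 0) then
      (1 : ZMod 2) else 0) = if i = j then x j else 0 := by
    intro i
    have hx : ∀ z : ZMod 2, z = 0 ∨ z = 1 := by decide
    by_cases hij : i = j
    · subst hij
      rcases hx (x i) with h | h <;> simp [h]
    · rcases hx (x i) with h | h <;> simp [h, hij]
  simp only [h]
  simp

theorem bdim_le {n m b : ℕ} (hcov : Cov n m) (hb : n + 1 ≤ 2 ^ b) {k : ℕ} (hk : k ∈ values n) :
    k ≤ m + (1 + b * 3) := by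
  obtain ⟨X, iF, iP, ⟨B, hB, hA⟩, rfl⟩ := hk
  apply Nat.sInf_le
  exact ⟨by omega, (exists_iff _).2 (upper B n m b hB hA hcov hb)⟩

theorem exists_b (n : ℕ) : n + 1 ≤ 2 ^ n := Nat.lt_two_pow_self

theorem values_bdd (n : ℕ) : BddAbove (values n) :=
  ⟨n + (1 + n * 3), fun _ hk => bdim_le (cov_trivial n) (exists_b n) hk⟩

theorem ex_mem (n : ℕ) : bdim (Ex n) ∈ values n :=
  ⟨Ex n, inferInstance, inferInstance, ⟨Ex.B n, Ex.B_card n, Ex.anti n⟩, rfl⟩

theorem sSup_greatest (n : ℕ) : IsGreatest (values n) (sSup (values n)) :=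
  ⟨Nat.sSup_mem ⟨_, ex_mem n⟩ (values_bdd n), fun _ hk => le_csSup (values_bdd n) hk⟩

theorem low (n : ℕ) : 2 ^ n ≤ (n + 1) ^ sSup (values n) := by
  have h1 : bdim (Ex n) ≤ sSup (values n) := le_csSup (values_bdd n) (ex_mem n)
  have hne : {d : ℕ | 1 ≤ d ∧ ∃ (L : Fin d → Ex n → Ex n → Prop) (τ : (Fin d → Bool) → Bool),
      IsBooleanRealizer (Ex n) d L τ}.Nonempty :=
    ⟨n + (1 + n * 3), by omega,
      (exists_iff _).2 (upper (Ex.B n) n n n (Ex.B_card n) (Ex.anti n) (cov_trivial n)
        (exists_b n))⟩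
  have h2 := Nat.sInf_mem hne
  have h3 := lower n _ ((exists_iff _).1 h2.2)
  exact h3.trans (Nat.pow_le_pow_right (by omega) h1)

theorem up (n m b : ℕ) (hcov : Cov n m) (hb : n + 1 ≤ 2 ^ b) :
    sSup (values n) ≤ m + (1 + b * 3) :=
  bdim_le hcov hb (sSup_greatest n).1

/-- The maximum `f n` of the Boolean dimension over all finite posets that are an antichain plus
`n` points exists, satisfies `2 ^ n ≤ (n + 1) ^ f n` for all `n`, and
`f n = n / log₂ n + O (n log log₂ n / (log₂ n) ^ 2)`; in particular `f n ~ n / log₂ n`. -/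
theorem result : ∃ f : ℕ → ℕ, (∀ n, IsGreatest (values n) (f n)) ∧
    (∀ n, 2 ^ n ≤ (n + 1) ^ f n) ∧
    ((fun n : ℕ => (f n : ℝ) - n / Real.logb 2 n) =O[atTop]
      (fun n : ℕ => n * Real.log (Real.logb 2 n) / (Real.logb 2 n) ^ 2)) ∧
    ((fun n : ℕ => (f n : ℝ)) ~[atTop] (fun n : ℕ => n / Real.logb 2 n)) := by
  refine ⟨fun n => sSup (values n), sSup_greatest, low, asymp _ low up, ?_⟩
  have h := asymp _ low up
  refine h.trans_isLittleO ?_
  have hlogb : Tendsto (fun n : ℕ => Real.logb 2 (n : ℝ)) atTop atTop :=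
    (Real.tendsto_logb_atTop (by norm_num)).comp tendsto_natCast_atTop_atTop
  have h2 : (fun n : ℕ => Real.log (Real.logb 2 (n : ℝ))) =o[atTop]
      (fun n : ℕ => Real.logb 2 (n : ℝ)) := Real.isLittleO_log_id_atTop.comp_tendsto hlogb
  have h3 := (isBigO_refl (fun n : ℕ => (n : ℝ) / (Real.logb 2 (n : ℝ)) ^ 2) atTop).mul_isLittleO h2
  refine (h3.congr' ?_ ?_)
  · exact Eventually.of_forall fun n => by ring
  · filter_upwards [hlogb.eventually_gt_atTop 0] with n hn
    field_simp

end Pool.Agent.Results.MP_e52733_co.Asymptotic
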